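import Mathlib
import Pool.Agent.H.MP_12274d_pr.B

namespace Pool.Agent.Results.MP_12274d_pr.Lower

open MeasureTheory
open scoped ENNReal

/-- Vertices infected after `n` steps of `r`-neighbour bootstrap percolation started from `A`. -/
def Inf {V : Type} (G : SimpleGraph V) (r : ℕ) (A : Set V) : ℕ → Set V
  | 0 => A
  | n + 1 => Inf G r A n ∪ {v | (r : ℕ∞) ≤ (G.neighborSet v ∩ Inf G r A n).encard}

/-- Critical probability; vertex `u` is initially infected when its uniform label is below `p`. -/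
noncomputable def pc {V : Type} (G : SimpleGraph V) (r : ℕ) : unitInterval :=
  sInf {p | 0 < (Measure.infinitePi fun _ : V => (volume : Measure unitInterval))
    {ω | ∀ v, ∃ n, v ∈ Inf G r {u | ω u < p} n}}

/-- `v` is a vertex of the tree in which the word `u` has the children `u ++ [i]`, `i < a u`. -/
def inT (a : List ℕ → ℕ) (v : List ℕ) : Prop := ∀ u i w, v = u ++ i :: w → i < a u

def tree (a : List ℕ → ℕ) : SimpleGraph {v // inT a v} :=
  SimpleGraph.fromRel fun u v => ∃ i, v.1 = u.1 ++ [i]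

lemma br {V : Type} (G : SimpleGraph V) (r : ℕ) (A : Set V) :
    ∀ n, Inf G r A n = Pool.Agent.H.MP_12274d_pr.Inf G r A n
  | 0 => rfl
  | n + 1 => by rw [Inf, Pool.Agent.H.MP_12274d_pr.Inf, br G r A n]

theorem result (r : ℕ) (hr : 2 ≤ r) : ∃ c : ℝ, 0 < c ∧ ∀ (ξ : Measure ℕ) [IsProbabilityMeasure ξ]
    (b : ℝ), r ≤ b → ξ {0} = 0 → ∫⁻ k, (k : ℝ≥0∞) ∂ξ = ENNReal.ofReal b →
    ∀ᵐ a ∂(Measure.infinitePi fun _ : List ℕ => ξ),
      c * Real.exp (-b / (r - 1)) ≤ (pc (tree a) r : ℝ) := by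
  simp only [pc, br]
  exact Pool.Agent.H.MP_12274d_pr.main r hr

end Pool.Agent.Results.MP_12274d_pr.Lower
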